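import Pool.Agent.Y203.PCA.Group

set_option autoImplicit false

open MeasureTheory ProbabilityTheory Filter Topology

namespace Pool.Agent.Results.MP_3c7ff8_pr.TailTrivial

open Pool.Agent.Y203.PCA

/-- **The invariant measure of every ergodic probabilistic cellular automaton is spatially mixing;
it is even tail trivial, over every group.** -/
theorem result :
    -- (1) The question (take `G = ℤ^d`; the filter `cofinite` is then `‖k‖ → ∞`), over every group:
    -- shift invariance, spatial mixing, mixing of all orders, uniform decorrelation, tail triviality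
    (∀ (G S : Type) [AddGroup G] [MeasurableSpace S] [MeasurableSingletonClass S] [Finite S]
      [TopologicalSpace S] [DiscreteTopology S] (Φ : GPCA G S) (π : Measure (G → S)),
      Φ.ErgodicWith π →
        (∀ k : G, π.map (shift k) = π) ∧
        (∀ (A B : Finset G) (u : A → S) (v : B → S),
          Tendsto (fun k : G => π (cyl A u ∩ shift k ⁻¹' cyl B v)) cofinite
            (𝓝 (π (cyl A u) * π (cyl B v)))) ∧
        MixingOfAllOrders π ∧ UniformDecorrelation π ∧ TailTrivial π) ∧
    -- (2) Every network of sites, every alphabet, rules that may depend on the site: the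
    -- covariance bound, and tail triviality for every invariant law that settles; this is the
    -- case if the law attracts almost every configuration with respect to itself
    (∀ (V S : Type) [MeasurableSpace S] (Φ : Net V S) (π : Measure (V → S)),
      IsProbabilityMeasure π → Φ.evolve π = π →
        (∀ (t : ℕ) (A B : Set V), (∀ s < t, Disjoint (Φ.reach^[s] A) (Φ.reach^[s] B)) →
          ∀ E F : Set (V → S), MeasurableSet[ev V S A] E → MeasurableSet[ev V S B] F →
            |(π (E ∩ F)).toReal - (π E).toReal * (π F).toReal| ≤
              ∫ x, |((Φ.evolve^[t] (Measure.dirac x)) E).toReal - (π E).toReal| ∂π) ∧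
        (Net.Settles Φ π → UniformDecorrelation π ∧ TailTrivial π) ∧
        ((∀ A : Set V, A.Finite → ∀ E : Set (V → S), MeasurableSet[ev V S A] E →
          ∀ᵐ x ∂π, Tendsto (fun t => ((Φ.evolve^[t] (Measure.dirac x)) E).toReal) atTop
            (𝓝 (π E).toReal)) → Net.Settles Φ π)) ∧
    -- (3) Over a group, every shift invariant invariant law that settles is mixing of all orders,
    -- whatever the alphabet and whether or not there are other invariant laws
    (∀ (G S : Type) [AddGroup G] [MeasurableSpace S] (Φ : GPCA G S) (π : Measure (G → S)),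
      IsProbabilityMeasure π → Φ.net.evolve π = π → (∀ k : G, π.map (shift k) = π) →
        Net.Settles Φ.net π → MixingOfAllOrders π) ∧
    -- (4) The rate: at distance more than `2 r t` the covariance of `E` with any event is at most
    -- the mean distance of `Φ^t(x, E)` from `π(E)`, if the neighbourhood has radius `r`
    (∀ (G S : Type) [SeminormedAddGroup G] [MeasurableSpace S] (Φ : GPCA G S)
      (π : Measure (G → S)), IsProbabilityMeasure π → Φ.net.evolve π = π → ∀ r : ℝ, 0 ≤ r →
        (∀ n ∈ Φ.nbhd, ‖n‖ ≤ r) → ∀ (t : ℕ) (A B : Set G),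
          (∀ a ∈ A, ∀ b ∈ B, 2 * r * t < ‖-a + b‖) →
          ∀ E F : Set (G → S), MeasurableSet[ev G S A] E → MeasurableSet[ev G S B] F →
            |(π (E ∩ F)).toReal - (π E).toReal * (π F).toReal| ≤
              ∫ x, |((Φ.net.evolve^[t] (Measure.dirac x)) E).toReal - (π E).toReal| ∂π) := by
  refine ⟨?_, ?_, ?_, ?_⟩
  · intro G S _ _ _ _ _ _ Φ π h
    have := h.prob
    have hs := GPCA.shift_invariant h
    have hset := GPCA.settles h
    have hu : UniformDecorrelation π := fun A hA E hE ε hε =>
      Net.uniform h.invariant hset hA hE hε
    exact ⟨hs, fun A B u v => mixing_two hs hu A.finite_toSet B.finite_toSet (cyl_ev A u)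
      (cyl_ev B v), mixing_of_decorrelation hs hu, hu,
      fun F hF => Net.tail_trivial h.invariant hset hF⟩
  · intro V S _ Φ π hπ hinv
    exact ⟨fun t A B hAB E F hE hF => Net.decorrelation hinv t hAB hE hF,
      fun hset => ⟨fun A hA E hE ε hε => Net.uniform hinv hset hA hE hε,
        fun F hF => Net.tail_trivial hinv hset hF⟩,
      fun h => Net.settles_of_ae h⟩
  · intro G S _ _ Φ π hπ hinv hs hset
    exact mixing_of_decorrelation hs fun A hA E hE ε hε => Net.uniform hinv hset hA hE hε
  · intro G S _ _ Φ π hπ hinv r hr0 hr t A B hAB E F hE hF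
    exact Net.decorrelation hinv t (cones_disjoint Φ hr0 hr hAB) hE hF

end Pool.Agent.Results.MP_3c7ff8_pr.TailTrivial
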